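import Pool.Agent.Helper68K9.TS.Main

set_option autoImplicit false

/-!
# 3SUM: time times space
-/

namespace Pool.Agent.Helper68K9.TS

open Finset Filter Pool.Agent.Helper62K9.TW

theorem card_cells (W : ℕ) : Fintype.card (Cells W) = 2 * W + 1 := by
  rw [Fintype.card_coe, Int.card_Icc]
  omega

/-- logarithms are small -/
theorem log_small (K : ℝ) (hK : 0 < K) : ∃ N : ℕ, ∀ n : ℕ, N ≤ n →
    K * Real.logb 2 n ≤ n / 8 := by
  have hl2 : 0 < Real.log 2 := Real.log_pos (by norm_num)
  have h1 := Real.isLittleO_log_id_atTop.bound (c := Real.log 2 / (8 * K)) (by positivity)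
  have h2 := tendsto_natCast_atTop_atTop.eventually h1 (α := ℕ)
  obtain ⟨N, hN⟩ := eventually_atTop.1 h2
  refine ⟨N, fun n hn => ?_⟩
  have h3 := hN n hn
  simp only [id_eq, Real.norm_eq_abs] at h3
  have h4 : Real.log n ≤ Real.log 2 / (8 * K) * n := by
    refine (le_abs_self _).trans (h3.trans (le_of_eq ?_))
    rw [abs_of_nonneg (Nat.cast_nonneg n)]
  rw [← Real.log_div_log]
  have h5 : Real.log n / Real.log 2 ≤ n / (8 * K) := by
    rw [div_le_iff₀ hl2]
    calc Real.log n ≤ Real.log 2 / (8 * K) * n := h4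
      _ = n / (8 * K) * Real.log 2 := by ring
  calc K * (Real.log n / Real.log 2) ≤ K * (n / (8 * K)) := by gcongr
    _ = n / 8 := by field_simp

/-- the lower bound -/
theorem lower (ε : ℝ) (hε : 0 < ε) (K : ℕ) : ∃ δ : ℝ, 0 < δ ∧ ∃ n₀ : ℕ,
    ∀ (n W T s : ℕ) (R : Type) [Fintype R] (p : R → ℝ) (Q : R → Type) [∀ r, Fintype (Q r)]
      (P : ∀ r, TwoWay (Cells W) (Q r)),
      n₀ ≤ n → 4 * n ≤ W → W ≤ K * n → (∀ r, 0 ≤ p r) → ∑ r, p r = 1 →
      (∀ r, Fintype.card (Q r) ≤ s) →
      (∀ r, ∀ x : Cells W → Bool, size x ≤ n → (P r).Accepts T x → ¬ HasSol x) →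
      (∀ x : Cells W → Bool, size x ≤ n → ¬ HasSol x →
        ε ≤ ∑ r, Set.indicator {r | (P r).Accepts T x} p r) →
      δ * (n : ℝ) ^ 2 ≤ T * Real.logb 2 (T * s + 1) := by
  set e : ℝ := min ε 1 with he
  have he0 : 0 < e := lt_min hε one_pos
  have he1 : e ≤ 1 := min_le_right _ _
  have heε : e ≤ ε := min_le_left _ _
  set M : ℕ := ⌈64 * (8 * K + 1) / e⌉₊ with hM
  have hMle : 64 * (8 * (K : ℝ) + 1) / e ≤ M := Nat.le_ceil _
  have hMpos : (0 : ℝ) < M := lt_of_lt_of_le (by positivity) hMle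
  obtain ⟨N, hN⟩ := log_small M hMpos
  set δ : ℝ := e / (2304 * M) with hδ
  have hδ0 : 0 < δ := by positivity
  set N1 : ℕ := max (max N (⌈64 / e⌉₊)) (⌈8 * Real.logb 2 (2 / e)⌉₊) with hN1
  refine ⟨δ, hδ0, 2 * N1 + 8, ?_⟩
  intro n W T s R _ p Q _ P hn hW hWK hp hp1 hQ hsound hcomp
  obtain ⟨m, hm⟩ : ∃ m, m = (n - 1) / 2 := ⟨_, rfl⟩
  have hmn : 2 * m + 1 ≤ n := by omega
  have hnm : n ≤ 3 * m := by omega
  have hnm2 : n ≤ 2 * m + 2 := by omega
  have hmN1 : N1 ≤ m := by omega
  have hm0 : 0 < m := by omega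
  have hm7 : 7 * m ≤ W := by omega
  have hmN : N ≤ m := ((le_max_left _ _).trans (le_max_left _ _)).trans hmN1
  have hm64 : 64 / e ≤ m := by
    have h1 : ⌈64 / e⌉₊ ≤ m := ((le_max_right _ _).trans (le_max_left _ _)).trans hmN1
    exact (Nat.le_ceil _).trans (by exact_mod_cast h1)
  have hmlog : 8 * Real.logb 2 (2 / e) ≤ m := by
    have h1 : ⌈8 * Real.logb 2 (2 / e)⌉₊ ≤ m := (le_max_right _ _).trans hmN1
    exact (Nat.le_ceil _).trans (by exact_mod_cast h1)
  have hmpos : (0 : ℝ) < m := by exact_mod_cast hm0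
  have hem : 64 ≤ e * m := by
    rw [div_le_iff₀ he0] at hm64
    linarith
  obtain ⟨w, hw⟩ : ∃ w, w = ⌊e * m / 32⌋₊ := ⟨_, rfl⟩
  have hw1 : (w : ℝ) ≤ e * m / 32 := by
    rw [hw]
    exact Nat.floor_le (by positivity)
  have hw2 : e * m / 64 ≤ w := by
    have h1 : e * m / 32 < w + 1 := by
      rw [hw]
      exact Nat.lt_floor_add_one _
    linarith
  have hwpos : (0 : ℝ) < w := lt_of_lt_of_le (by positivity) hw2
  have hw0 : 0 < w := by exact_mod_cast hwpos
  have hwm : (w : ℝ) ≤ m := by nlinarith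
  have hX : Fintype.card (Cells W) ≤ (M + 1) * w := by
    rw [card_cells]
    have h1 : (2 * W + 1 : ℝ) ≤ (8 * K + 1) * m := by
      have h2 : (W : ℝ) ≤ K * (2 * m + 2) := by
        have h3 : W ≤ K * (2 * m + 2) := hWK.trans (Nat.mul_le_mul_left _ hnm2)
        exact_mod_cast h3
      have h4 : (1 : ℝ) ≤ m := by exact_mod_cast hm0
      have h5 : (0 : ℝ) ≤ K := Nat.cast_nonneg K
      nlinarith
    have h2 : (8 * K + 1) * (m : ℝ) ≤ M * w := by
      calc (8 * K + 1) * (m : ℝ) = (64 * (8 * (K : ℝ) + 1) / e) * (e * m / 64) := by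
            field_simp
        _ ≤ M * w := mul_le_mul hMle hw2 (by positivity) hMpos.le
    have h3 : ((2 * W + 1 : ℕ) : ℝ) ≤ ((M * w : ℕ) : ℝ) := by
      push_cast
      linarith
    have h4 : 2 * W + 1 ≤ M * w := by exact_mod_cast h3
    exact h4.trans (Nat.mul_le_mul_right _ (Nat.le_succ M))
  have hcore := core hm0 hm7 he0 p Q P T M w s hw0 hX (by linarith) hp hp1 hQ
    (fun r x hx => hsound r x (hx.trans hmn)) (fun x hx hs => heε.trans (hcomp x (hx.trans hmn) hs))
  -- logarithms
  set A : ℝ := (T : ℝ) * s + 1 with hA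
  have hA1 : 1 ≤ A := by
    have : (0 : ℝ) ≤ (T : ℝ) * s := by positivity
    linarith
  have hL0 : 0 ≤ Real.logb 2 A := Real.logb_nonneg (by norm_num) hA1
  have h2ne : (2 : ℝ) ≠ 0 := by norm_num
  have hlog := Real.logb_le_logb_of_le (b := 2) (by norm_num) (by positivity) hcore
  have hinv : Real.logb 2 (e / 2) = - Real.logb 2 (2 / e) := by
    rw [← Real.logb_inv, inv_div]
  have hpow2 : ∀ k : ℕ, Real.logb 2 ((2 : ℝ) ^ k) = k := by
    intro k
    rw [Real.logb_pow, Real.logb_self_eq_one (by norm_num), mul_one]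
  have e1 : Real.logb 2 (e / 2 * 2 ^ m) = - Real.logb 2 (2 / e) + m := by
    rw [Real.logb_mul (by positivity) (by positivity), hinv, hpow2]
  have e2 : Real.logb 2 (((w : ℝ) * A ^ (T / w)) ^ M * 2 ^ (m / 2)) =
      M * (Real.logb 2 w + (T / w : ℕ) * Real.logb 2 A) + (m / 2 : ℕ) := by
    rw [Real.logb_mul (by positivity) (by positivity), hpow2, Real.logb_pow,
      Real.logb_mul (by positivity) (by positivity), Real.logb_pow]
  rw [e1, e2] at hlog
  have hTw : ((T / w : ℕ) : ℝ) ≤ T / w := Nat.cast_div_le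
  have hm2 : ((m / 2 : ℕ) : ℝ) ≤ m / 2 := Nat.cast_div_le
  have hlw : Real.logb 2 w ≤ Real.logb 2 m :=
    Real.logb_le_logb_of_le (by norm_num) hwpos hwm
  have hMlog := hN m hmN
  have h1 : (M : ℝ) * (Real.logb 2 w + (T / w : ℕ) * Real.logb 2 A) ≤
      m / 8 + M * (T / w * Real.logb 2 A) := by
    rw [mul_add]
    refine add_le_add ((mul_le_mul_of_nonneg_left hlw hMpos.le).trans hMlog) ?_
    exact mul_le_mul_of_nonneg_left (mul_le_mul_of_nonneg_right hTw hL0) hMpos.le
  have h2 : (m : ℝ) / 4 ≤ M * (T / w * Real.logb 2 A) := by linarith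
  have h3 : (m : ℝ) / 4 * w ≤ M * (T * Real.logb 2 A) := by
    have h4 : (m : ℝ) / 4 * w ≤ M * (T / w * Real.logb 2 A) * w :=
      mul_le_mul_of_nonneg_right h2 hwpos.le
    refine h4.trans (le_of_eq ?_)
    field_simp
  have h4 : e * (m : ℝ) ^ 2 / 256 ≤ M * (T * Real.logb 2 A) := by
    have h5 : (m : ℝ) / 4 * (e * m / 64) ≤ (m : ℝ) / 4 * w :=
      mul_le_mul_of_nonneg_left hw2 (by positivity)
    refine le_trans (le_of_eq ?_) (h5.trans h3)
    ring
  have hnm' : (n : ℝ) ≤ 3 * m := by exact_mod_cast hnm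
  have h5 : (n : ℝ) ^ 2 ≤ 9 * (m : ℝ) ^ 2 := by
    have : (0 : ℝ) ≤ n := Nat.cast_nonneg n
    nlinarith
  calc δ * (n : ℝ) ^ 2 ≤ δ * (9 * (m : ℝ) ^ 2) := mul_le_mul_of_nonneg_left h5 hδ0.le
    _ = (e * (m : ℝ) ^ 2 / 256) / M := by
        rw [hδ]
        field_simp
        ring
    _ ≤ T * Real.logb 2 A := by
        rw [div_le_iff₀ hMpos]
        linarith

/-- guess the set, then check it in one pass -/
def guess (W : ℕ) (o : Cells W ≃ Fin (Fintype.card (Cells W))) :
    TwoWay (Cells W) (Option (Cells W → Bool)) where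
  order := o
  start := none
  step _ q j b q' j' := j' = j + 1 ∧ ∃ A : Cells W → Bool, ¬ HasSol A ∧ q' = some A ∧
    (q = none ∨ q = some A) ∧ ∀ hj : j < Fintype.card (Cells W), A (o.symm ⟨j, hj⟩) = b
  local_step := by
    rintro t q j b q' j' ⟨h, -⟩
    omega
  final q := q ≠ none

/-- the upper bound -/
theorem upper (W : ℕ) (o : Cells W ≃ Fin (Fintype.card (Cells W))) :
    ∃ (Q : Type) (_ : Fintype Q) (P : TwoWay (Cells W) Q),
      Fintype.card Q = 2 ^ (2 * W + 1) + 1 ∧ P.order = o ∧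
      (∀ t q j b q' j', P.step t q j b q' j' → j' = j + 1) ∧
      ∀ x : Cells W → Bool, P.Accepts (2 * W + 1) x ↔ ¬ HasSol x := by
  classical
  refine ⟨Option (Cells W → Bool), inferInstance, guess W o, ?_, rfl,
    fun t q j b q' j' h => h.1, ?_⟩
  · rw [Fintype.card_option, Fintype.card_fun, card_cells, Fintype.card_bool]
  · intro x
    have hN := card_cells W
    rw [← hN]
    have hNpos : 0 < Fintype.card (Cells W) := by omega
    constructor
    · rintro ⟨q, h, h1, h2, h3, h4⟩
      have hh : ∀ t ≤ Fintype.card (Cells W), h t = t := by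
        intro t
        induction t with
        | zero => exact fun _ => h2
        | succ t ih =>
          intro ht
          rw [(h4 t (by omega)).1, ih (by omega)]
      obtain ⟨-, A, hA, hq1, -, hc0⟩ := h4 0 hNpos
      have hq : ∀ t, t < Fintype.card (Cells W) → q (t + 1) = some A := by
        intro t
        induction t with
        | zero => exact fun _ => hq1
        | succ t ih =>
          intro ht
          obtain ⟨-, A', -, hq2, hq3, -⟩ := h4 (t + 1) ht
          have := ih (by omega)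
          rw [this] at hq3
          rcases hq3 with hq3 | hq3
          · exact absurd hq3 (by simp)
          · rw [hq2, ← hq3]
      have hAx : A = x := by
        funext v
        set j := o v with hj
        obtain ⟨-, A', -, hq2, -, hc⟩ := h4 j j.2
        have hKK : A' = A := by
          have := hq j j.2
          rw [hq2, Option.some.injEq] at this
          exact this
        rw [hKK, hh j j.2.le] at hc
        have hbit : (guess W o).bit x j = x v := by
          unfold TwoWay.bit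
          rw [dif_pos j.2]
          show x (o.symm ⟨j, j.2⟩) = x v
          rw [Fin.eta, hj, Equiv.symm_apply_apply]
        rw [hbit] at hc
        have h5 := hc j.2
        rwa [Fin.eta, hj, Equiv.symm_apply_apply] at h5
      rw [← hAx]
      exact hA
    · intro hx
      refine ⟨fun t => if t = 0 then none else some x, fun t => t, by simp [guess], rfl, ?_, ?_⟩
      · show (if Fintype.card (Cells W) = 0 then none else some x) ≠ none
        rw [if_neg hNpos.ne']
        exact Option.some_ne_none x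
      · intro t ht
        refine ⟨rfl, x, hx, by simp, ?_, ?_⟩
        · rcases Nat.eq_zero_or_pos t with h0 | h0
          · left
            simp [h0]
          · right
            simp [h0.ne']
        · intro hj
          unfold TwoWay.bit
          rw [dif_pos hj]
          rfl

end Pool.Agent.Helper68K9.TS
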