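import Pool.Agent.Helper68K9.TS.Fam

set_option autoImplicit false

/-!
# 3SUM: the lower bound
-/

namespace Pool.Agent.Helper68K9.TS

open Finset Filter Pool.Agent.Helper62K9.TW

/-- some program accepts many inputs -/
theorem exists_many {J R : Type} [Fintype J] [Fintype R] {ε : ℝ} {p : R → ℝ} (A : R → J → Prop)
    (hp : ∀ r, 0 ≤ p r) (hp1 : ∑ r, p r = 1)
    (hcomp : ∀ j, ε ≤ ∑ r, Set.indicator {r | A r j} p r) :
    ∃ r, ∃ F : Finset J, (∀ j, j ∈ F ↔ A r j) ∧ ε * Fintype.card J ≤ F.card := by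
  classical
  set 𝓕 : R → Finset J := fun q => univ.filter fun σ => A q σ with h𝓕
  obtain ⟨q, hq⟩ : ∃ q, ε * Fintype.card J ≤ ((𝓕 q).card : ℝ) := by
    by_contra hcon
    push Not at hcon
    have h2 : ∑ q, p q * ((𝓕 q).card : ℝ) = ∑ j : J, ∑ q, Set.indicator {q | A q j} p q := by
      rw [sum_comm]
      refine sum_congr rfl fun q _ => ?_
      rw [h𝓕]
      simp only [Set.indicator_apply, Set.mem_ofPred_eq]
      rw [← sum_filter, sum_const, nsmul_eq_mul, mul_comm]
    have h3 : ε * Fintype.card J ≤ ∑ q, p q * ((𝓕 q).card : ℝ) := by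
      rw [h2]
      have h5 := card_nsmul_le_sum (univ : Finset J) _ _ fun j _ => hcomp j
      refine le_trans (le_of_eq ?_) h5
      rw [card_univ, nsmul_eq_mul, mul_comm]
    have h4 : ∑ q, p q * ((𝓕 q).card : ℝ) < ∑ q, p q * (ε * Fintype.card J) := by
      have hex : ∃ q, 0 < p q := by
        by_contra hcon'
        push Not at hcon'
        have : ∑ q, p q ≤ 0 := sum_nonpos fun q _ => hcon' q
        linarith
      obtain ⟨q₀, hq₀⟩ := hex
      refine sum_lt_sum (fun q _ => mul_le_mul_of_nonneg_left (hcon q).le (hp q))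
        ⟨q₀, mem_univ _, mul_lt_mul_of_pos_left (hcon q₀) hq₀⟩
    rw [← sum_mul, hp1, one_mul] at h4
    linarith
  exact ⟨q, 𝓕 q, fun j => by rw [h𝓕]; simp, hq⟩

open Classical in
/-- few values of `t` have many near pairs -/
theorem few_bad {W m : ℕ} (hm : 0 < m) (hW : 7 * m ≤ W) (pos : Cells W → ℕ)
    (hpos : Function.Injective pos) (w : ℕ) :
    (univ.filter fun t : Fin m =>
      m / 2 < (univ.filter fun i : Fin m => Near hW t.2 pos w i).card).card ≤ 8 * w := by
  set bad := univ.filter fun t : Fin m =>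
      m / 2 < (univ.filter fun i : Fin m => Near hW t.2 pos w i).card with hbad
  have h1 : ∀ i : Fin m, (univ.filter fun t : Fin m => Near hW t.2 pos w i).card ≤ 4 * w := by
    intro i
    set q := pos (cA W m hW i) with hq
    have hinj : Function.Injective fun t : Fin m => pos (cB W m t hW t.2 i) := by
      intro t t' h
      have h2 := hpos h
      have h3 := congrArg (fun e : Cells W => (e : ℤ)) h2
      simp only [cB] at h3
      exact Fin.ext (by omega)
    have h2 : ((univ.filter fun t : Fin m => Near hW t.2 pos w i).image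
        fun t : Fin m => pos (cB W m t hW t.2 i)) ⊆ Ico (q + 1 - 2 * w) (q + 2 * w) := by
      intro j hj
      obtain ⟨t, ht, rfl⟩ := mem_image.1 hj
      obtain ⟨h3, h4⟩ := (mem_filter.1 ht).2
      rw [mem_Ico]
      omega
    rw [← card_image_of_injective _ hinj]
    refine (card_le_card h2).trans ?_
    rw [Nat.card_Ico]
    omega
  have h2 : bad.card * (m / 2 + 1) ≤ m * (4 * w) := by
    calc bad.card * (m / 2 + 1) = ∑ _t ∈ bad, (m / 2 + 1) := by rw [sum_const, smul_eq_mul]
      _ ≤ ∑ t ∈ bad, (univ.filter fun i : Fin m => Near hW t.2 pos w i).card :=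
          sum_le_sum fun t ht => (mem_filter.1 ht).2
      _ ≤ ∑ t : Fin m, (univ.filter fun i : Fin m => Near hW t.2 pos w i).card :=
          sum_le_sum_of_subset (subset_univ _)
      _ = ∑ i : Fin m, (univ.filter fun t : Fin m => Near hW t.2 pos w i).card := by
          simp only [card_filter]
          exact sum_comm
      _ ≤ ∑ _i : Fin m, 4 * w := sum_le_sum fun i _ => h1 i
      _ = m * (4 * w) := by rw [sum_const, card_univ, Fintype.card_fin, smul_eq_mul]
  have h3 : m ≤ 2 * (m / 2 + 1) := by omega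
  have h4 : bad.card * m ≤ (8 * w) * m := by
    calc bad.card * m ≤ bad.card * (2 * (m / 2 + 1)) := Nat.mul_le_mul_left _ h3
      _ = 2 * (bad.card * (m / 2 + 1)) := by ring
      _ ≤ 2 * (m * (4 * w)) := Nat.mul_le_mul_left _ h2
      _ = (8 * w) * m := by ring
  exact Nat.le_of_mul_le_mul_right h4 hm

open Classical in
/-- the finite form of the lower bound -/
theorem core {W m : ℕ} (hm : 0 < m) (hW : 7 * m ≤ W) {ε : ℝ} (hε : 0 < ε)
    {R : Type} [Fintype R] (p : R → ℝ) (Q : R → Type) [∀ r, Fintype (Q r)]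
    (P : ∀ r, TwoWay (Cells W) (Q r)) (T M w s : ℕ) (hw : 0 < w)
    (hX : Fintype.card (Cells W) ≤ (M + 1) * w) (hwm : (8 * w : ℝ) ≤ ε / 4 * m)
    (hp : ∀ r, 0 ≤ p r) (hp1 : ∑ r, p r = 1) (hQ : ∀ r, Fintype.card (Q r) ≤ s)
    (hsound : ∀ r, ∀ x : Cells W → Bool, size x ≤ 2 * m + 1 → (P r).Accepts T x → ¬ HasSol x)
    (hcomp : ∀ x : Cells W → Bool, size x ≤ 2 * m + 1 → ¬ HasSol x →
      ε ≤ ∑ r, Set.indicator {r | (P r).Accepts T x} p r) :
    ε / 2 * 2 ^ m ≤ ((w : ℝ) * (T * s + 1) ^ (T / w)) ^ M * 2 ^ (m / 2) := by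
  obtain ⟨r, 𝓕, h𝓕, hcard⟩ := exists_many (J := Fin m × (Fin m → Bool))
    (fun r j => (P r).Accepts T (inp W m j.1 j.2)) hp hp1
    (fun j => hcomp _ (size_inp hW j.1.2 j.2) (inp_no j.1.2 j.2))
  rw [Fintype.card_prod, Fintype.card_fun, Fintype.card_fin, Fintype.card_bool] at hcard
  set pos : Cells W → ℕ := fun e => (((P r).order e : Fin _) : ℕ) with hposdef
  have hpos : Function.Injective pos := fun e e' h => (P r).order.injective (Fin.ext h)
  set bad := univ.filter fun t : Fin m =>
      m / 2 < (univ.filter fun i : Fin m => Near hW t.2 pos w i).card with hbad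
  have hbadc : bad.card ≤ 8 * w := few_bad hm hW pos hpos w
  set G : Fin m → Finset (Fin m → Bool) := fun t => univ.filter fun σ => (t, σ) ∈ 𝓕 with hG
  have hsum : 𝓕.card = ∑ t : Fin m, (G t).card := by
    rw [card_eq_sum_card_fiberwise (f := Prod.fst) (t := univ) (fun _ _ => mem_coe.2 (mem_univ _))]
    refine sum_congr rfl fun t _ => ?_
    refine card_bij' (fun j _ => j.2) (fun σ _ => (t, σ)) ?_ ?_ ?_ ?_
    · intro j hj
      obtain ⟨h1, h2⟩ := mem_filter.1 hj
      refine mem_filter.2 ⟨mem_univ _, ?_⟩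
      rw [← h2]
      exact h1
    · intro σ hσ
      exact mem_filter.2 ⟨(mem_filter.1 hσ).2, rfl⟩
    · intro j hj
      obtain ⟨h1, h2⟩ := mem_filter.1 hj
      rw [← h2]
    · intro σ hσ
      rfl
  obtain ⟨t, htb, htG⟩ : ∃ t : Fin m, t ∉ bad ∧ ε / 2 * 2 ^ m ≤ ((G t).card : ℝ) := by
    by_contra hcon
    push Not at hcon
    have h1 : (𝓕.card : ℝ) ≤ 8 * w * 2 ^ m + m * (ε / 2 * 2 ^ m) := by
      rw [hsum]
      push_cast
      rw [← sum_filter_add_sum_filter_not univ (fun t => t ∈ bad)]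
      refine add_le_add ?_ ?_
      · have h2 : ∀ t ∈ univ.filter (fun t => t ∈ bad), ((G t).card : ℝ) ≤ 2 ^ m := by
          intro t _
          have h3 : (G t).card ≤ 2 ^ m := by
            refine (card_filter_le _ _).trans (le_of_eq ?_)
            rw [card_univ, Fintype.card_fun, Fintype.card_fin, Fintype.card_bool]
          exact_mod_cast h3
        refine (sum_le_card_nsmul _ _ _ h2).trans ?_
        rw [nsmul_eq_mul]
        refine mul_le_mul_of_nonneg_right ?_ (by positivity)
        have h4 : (univ.filter fun t => t ∈ bad) = bad := by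
          ext t
          simp
        rw [h4]
        exact_mod_cast hbadc
      · have h2 : ∀ t ∈ univ.filter (fun t => ¬ t ∈ bad), ((G t).card : ℝ) ≤ ε / 2 * 2 ^ m := by
          intro t ht
          exact (hcon t (mem_filter.1 ht).2).le
        refine (sum_le_card_nsmul _ _ _ h2).trans ?_
        rw [nsmul_eq_mul]
        refine mul_le_mul_of_nonneg_right ?_ (by positivity)
        have h4 : (univ.filter fun t : Fin m => ¬ t ∈ bad).card ≤ m := by
          refine (card_filter_le _ _).trans (le_of_eq ?_)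
          rw [card_univ, Fintype.card_fin]
        exact_mod_cast h4
    have h2 : (0 : ℝ) < 2 ^ m := by positivity
    have h3 : (0 : ℝ) < m := by exact_mod_cast hm
    have h4 : 8 * w * (2 : ℝ) ^ m ≤ ε / 4 * m * 2 ^ m := mul_le_mul_of_nonneg_right hwm h2.le
    push_cast at hcard
    have h5 : 0 < ε * (m * (2 : ℝ) ^ m) := by positivity
    have h6 : (m : ℝ) * (ε / 2 * 2 ^ m) = ε * (m * (2 : ℝ) ^ m) / 2 := by ring
    have h7 : ε / 4 * m * (2 : ℝ) ^ m = ε * (m * (2 : ℝ) ^ m) / 4 := by ring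
    rw [h6] at h1
    rw [h7] at h4
    linarith
  have hnear : (univ.filter fun i : Fin m => Near hW t.2 pos w i).card ≤ m / 2 := by
    by_contra hcon
    exact htb (mem_filter.2 ⟨mem_univ _, not_le.1 hcon⟩)
  have hone := one hW t.2 (P r) T M w hw hX (G t)
    (fun σ hσ => (h𝓕 (t, σ)).1 (mem_filter.1 hσ).2) (hsound r) hnear
  refine htG.trans ?_
  have h1 : ((G t).card : ℝ) ≤
      ((w : ℝ) * (T * Fintype.card (Q r) + 1) ^ (T / w)) ^ M * 2 ^ (m / 2) := by
    exact_mod_cast hone
  refine h1.trans (mul_le_mul_of_nonneg_right ?_ (by positivity))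
  refine pow_le_pow_left₀ (by positivity) (mul_le_mul_of_nonneg_left ?_ (by positivity)) _
  refine pow_le_pow_left₀ (by positivity) ?_ _
  have h2 : (Fintype.card (Q r) : ℝ) ≤ s := by exact_mod_cast hQ r
  have h3 : (0 : ℝ) ≤ T := Nat.cast_nonneg T
  nlinarith

end Pool.Agent.Helper68K9.TS
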