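import Pool.Agent.Helper68K9.TS.Re

set_option autoImplicit false

/-!
# 3SUM: the instances
-/

namespace Pool.Agent.Helper68K9.TS

open Finset Pool.Agent.Helper62K9.TW

/-- The integers between `-W` and `W`. -/
abbrev Cells (W : ℕ) : Type := ↥(Finset.Icc (-(W : ℤ)) W)

/-- There are three distinct integers with sum zero in the set with the characteristic vector `x`. -/
def HasSol {W : ℕ} (x : Cells W → Bool) : Prop :=
  ∃ a b c : Cells W, a ≠ b ∧ a ≠ c ∧ b ≠ c ∧ x a = true ∧ x b = true ∧ x c = true ∧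
    (a : ℤ) + b + c = 0

/-- The number of the elements of the set with the characteristic vector `x`. -/
noncomputable def size {W : ℕ} (x : Cells W → Bool) : ℕ := (univ.filter fun a => x a = true).card

/-- the integers of an instance -/
def Mem (m t : ℕ) (σ : Fin m → Bool) (z : ℤ) : Prop :=
  z = -(6 * m - 1 + t) ∨ (∃ i : Fin m, z = m + (i : ℕ) ∧ σ i = true) ∨
    ∃ i : Fin m, z = 5 * m - 1 + t - (i : ℕ) ∧ σ i = false

open Classical in
/-- the instances -/
noncomputable def inp (W m t : ℕ) (σ : Fin m → Bool) : Cells W → Bool :=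
  fun e => decide (Mem m t σ (e : ℤ))

theorem inp_iff {W m t : ℕ} {σ : Fin m → Bool} {e : Cells W} :
    inp W m t σ e = true ↔ Mem m t σ (e : ℤ) := by
  simp [inp]

/-- the instances have no solutions -/
theorem inp_no {W m t : ℕ} (ht : t < m) (σ : Fin m → Bool) : ¬ HasSol (inp W m t σ) := by
  rintro ⟨a, b, c, hab, hac, hbc, ha, hb, hc, hsum⟩
  rw [inp_iff] at ha hb hc
  have hab' : (a : ℤ) ≠ b := fun h => hab (Subtype.ext h)
  have hac' : (a : ℤ) ≠ c := fun h => hac (Subtype.ext h)
  have hbc' : (b : ℤ) ≠ c := fun h => hbc (Subtype.ext h)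
  have key : ∀ i j : Fin m, ((i : ℕ) : ℤ) = (j : ℕ) → σ i = true → σ j = false → False := by
    intro i j hij h1 h2
    have : i = j := Fin.ext (by exact_mod_cast hij)
    rw [this, h2] at h1
    exact absurd h1 (by simp)
  rcases ha with ha | ⟨i, ha, hi⟩ | ⟨i, ha, hi⟩ <;>
  rcases hb with hb | ⟨j, hb, hj⟩ | ⟨j, hb, hj⟩ <;>
  rcases hc with hc | ⟨l, hc, hl⟩ | ⟨l, hc, hl⟩ <;>
  first
  | omega
  | exact key _ _ (by omega) ‹σ _ = true› ‹σ _ = false›
  | exact key j l (by omega) hj hl
  | exact key l j (by omega) hl hj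
  | exact key i l (by omega) hi hl
  | exact key l i (by omega) hl hi
  | exact key i j (by omega) hi hj
  | exact key j i (by omega) hj hi

/-- the cells of the first kind -/
def cA (W m : ℕ) (hW : 7 * m ≤ W) (i : Fin m) : Cells W :=
  ⟨(m : ℤ) + (i : ℕ), by rw [mem_Icc]; omega⟩

/-- the cells of the second kind -/
def cB (W m t : ℕ) (hW : 7 * m ≤ W) (ht : t < m) (i : Fin m) : Cells W :=
  ⟨5 * (m : ℤ) - 1 + t - (i : ℕ), by rw [mem_Icc]; omega⟩

/-- the cell of the third kind -/
def cC (W m t : ℕ) (hW : 7 * m ≤ W) (ht : t < m) : Cells W :=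
  ⟨-(6 * (m : ℤ) - 1 + t), by rw [mem_Icc]; omega⟩

theorem inp_cA {W m t : ℕ} (hW : 7 * m ≤ W) (ht : t < m) (σ : Fin m → Bool) (i : Fin m) :
    inp W m t σ (cA W m hW i) = σ i := by
  rw [Bool.eq_iff_iff, inp_iff]
  constructor
  · rintro (h | ⟨j, h, hj⟩ | ⟨j, h, hj⟩)
    · simp only [cA] at h
      omega
    · simp only [cA] at h
      have : i = j := Fin.ext (by omega)
      rwa [this]
    · simp only [cA] at h
      omega
  · intro h
    exact Or.inr (Or.inl ⟨i, rfl, h⟩)

theorem inp_cB {W m t : ℕ} (hW : 7 * m ≤ W) (ht : t < m) (σ : Fin m → Bool) (i : Fin m) :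
    inp W m t σ (cB W m t hW ht i) = !σ i := by
  rw [Bool.eq_iff_iff, inp_iff]
  constructor
  · rintro (h | ⟨j, h, hj⟩ | ⟨j, h, hj⟩)
    · simp only [cB] at h
      omega
    · simp only [cB] at h
      omega
    · simp only [cB] at h
      have : i = j := Fin.ext (by omega)
      rw [this, hj]
      rfl
  · intro h
    exact Or.inr (Or.inr ⟨i, rfl, by simpa using h⟩)

theorem inp_cC {W m t : ℕ} (hW : 7 * m ≤ W) (ht : t < m) (σ : Fin m → Bool) :
    inp W m t σ (cC W m t hW ht) = true := by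
  rw [inp_iff]
  exact Or.inl rfl

theorem size_le {W m t : ℕ} (hW : 7 * m ≤ W) (ht : t < m) (y : Cells W → Bool)
    (h : ∀ e, y e = true → ∃ σ, inp W m t σ e = true) : size y ≤ 2 * m + 1 := by
  classical
  have hsub : (univ.filter fun a => y a = true) ⊆
      (univ.image (cA W m hW) ∪ univ.image (cB W m t hW ht)) ∪ {cC W m t hW ht} := by
    intro e he
    obtain ⟨σ, hσ⟩ := h e (mem_filter.1 he).2
    rw [inp_iff] at hσ
    rw [mem_union, mem_union, mem_image, mem_image, mem_singleton]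
    rcases hσ with h1 | ⟨i, h1, -⟩ | ⟨i, h1, -⟩
    · exact Or.inr (Subtype.ext h1)
    · exact Or.inl (Or.inl ⟨i, mem_univ _, Subtype.ext h1.symm⟩)
    · exact Or.inl (Or.inr ⟨i, mem_univ _, Subtype.ext h1.symm⟩)
  refine (card_le_card hsub).trans ((card_union_le _ _).trans ?_)
  have h1 := card_union_le (univ.image (cA W m hW)) (univ.image (cB W m t hW ht))
  have h2 : (univ.image (cA W m hW)).card ≤ m := card_image_le.trans (by simp)
  have h3 : (univ.image (cB W m t hW ht)).card ≤ m := card_image_le.trans (by simp)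
  rw [card_singleton]
  omega

theorem size_inp {W m t : ℕ} (hW : 7 * m ≤ W) (ht : t < m) (σ : Fin m → Bool) :
    size (inp W m t σ) ≤ 2 * m + 1 :=
  size_le hW ht _ fun _ he => ⟨σ, he⟩

/-- the two cells of the pair `i` are near to each other -/
def Near {W m t : ℕ} (hW : 7 * m ≤ W) (ht : t < m) (pos : Cells W → ℕ) (w : ℕ) (i : Fin m) : Prop :=
  pos (cA W m hW i) < pos (cB W m t hW ht i) + 2 * w ∧
    pos (cB W m t hW ht i) < pos (cA W m hW i) + 2 * w

open Classical in
/-- one value of `t` -/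
theorem one {W m t : ℕ} (hW : 7 * m ≤ W) (ht : t < m) {Q : Type} [Fintype Q]
    (P : TwoWay (Cells W) Q) (T M w : ℕ) (hw : 0 < w) (hX : Fintype.card (Cells W) ≤ (M + 1) * w)
    (𝓕 : Finset (Fin m → Bool)) (hacc : ∀ σ ∈ 𝓕, P.Accepts T (inp W m t σ))
    (hsound : ∀ x : Cells W → Bool, size x ≤ 2 * m + 1 → P.Accepts T x → ¬ HasSol x)
    (hnear : (univ.filter fun i : Fin m =>
      Near hW ht (fun e => ((P.order e : Fin _) : ℕ)) w i).card ≤ m / 2) :
    𝓕.card ≤ (w * (T * Fintype.card Q + 1) ^ (T / w)) ^ M * 2 ^ (m / 2) := by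
  obtain ⟨F, -, hF, hg⟩ := re' (Cells W) Q (Fin m → Bool) P T M w 𝓕 (inp W m t) hw hX hacc
  refine hF.trans (Nat.mul_le_mul_left _ ?_)
  rcases F.eq_empty_or_nonempty with hFe | hFne
  · rw [hFe]
    simp
  obtain ⟨g, hgM, hgw, hmix⟩ := hg hFne
  set N := univ.filter fun i : Fin m =>
      Near hW ht (fun e => ((P.order e : Fin _) : ℕ)) w i with hN
  have hfar : ∀ i ∉ N, g (cA W m hW i) ≠ g (cB W m t hW ht i) := by
    intro i hi hgi
    apply hi
    rw [hN, mem_filter]
    refine ⟨mem_univ _, ?_⟩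
    obtain ⟨h1, h2⟩ := hgw (cA W m hW i)
    obtain ⟨h3, h4⟩ := hgw (cB W m t hW ht i)
    rw [← hgi] at h3 h4
    set k := g (cA W m hW i)
    have h5 : (k + 1) * w ≤ (k - 1) * w + 2 * w := by
      rw [← Nat.add_mul]
      exact Nat.mul_le_mul_right _ (by omega)
    unfold Near
    simp only
    omega
  have hclaim : ∀ i ∉ N, ∀ σ ∈ F, ∀ τ ∈ F, σ i = true → τ i = false → False := by
    intro i hi σ hσ τ hτ h1 h2
    have hne := hfar i hi
    set c : ℕ → (Fin m → Bool) := fun k => if k = g (cA W m hW i) then σ else τ with hc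
    have hcF : ∀ k ≤ M, c k ∈ F := by
      intro k _
      rw [hc]
      simp only
      split_ifs
      · exact hσ
      · exact hτ
    have hy := hmix c (fun e => inp W m t (c (g e)) e) hcF (fun e => rfl)
    refine hsound _ (size_le hW ht _ fun e he => ⟨_, he⟩) hy
      ⟨cA W m hW i, cB W m t hW ht i, cC W m t hW ht, ?_, ?_, ?_, ?_, ?_, ?_, ?_⟩
    · intro h
      have := congrArg (fun e : Cells W => (e : ℤ)) h
      simp only [cA, cB] at this
      omega
    · intro h
      have := congrArg (fun e : Cells W => (e : ℤ)) h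
      simp only [cA, cC] at this
      omega
    · intro h
      have := congrArg (fun e : Cells W => (e : ℤ)) h
      simp only [cB, cC] at this
      omega
    · simp only [inp_cA hW ht, hc, if_true]
      exact h1
    · simp only [inp_cB hW ht, hc]
      rw [if_neg (Ne.symm hne), h2]
      rfl
    · exact inp_cC hW ht _
    · simp only [cA, cB, cC]
      omega
  have hagree : ∀ i ∉ N, ∀ σ ∈ F, ∀ τ ∈ F, σ i = τ i := by
    intro i hi σ hσ τ hτ
    cases h1 : σ i <;> cases h2 : τ i
    · rfl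
    · exact (hclaim i hi τ hτ σ hσ h2 h1).elim
    · exact (hclaim i hi σ hσ τ hτ h1 h2).elim
    · rfl
  have hcard : F.card ≤ N.powerset.card := by
    refine card_le_card_of_injOn (fun σ => N.filter fun i => σ i = true) ?_ ?_
    · intro σ _
      exact mem_coe.2 (mem_powerset.2 (filter_subset _ _))
    · intro σ hσ τ hτ h
      change N.filter (fun i => σ i = true) = N.filter (fun i => τ i = true) at h
      funext i
      by_cases hi : i ∈ N
      · have h1 := Finset.ext_iff.1 h i
        exact Bool.eq_iff_iff.2 ⟨fun h2 => (mem_filter.1 (h1.1 (mem_filter.2 ⟨hi, h2⟩))).2,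
          fun h2 => (mem_filter.1 (h1.2 (mem_filter.2 ⟨hi, h2⟩))).2⟩
      · exact hagree i hi σ (mem_coe.1 hσ) τ (mem_coe.1 hτ)
  rw [card_powerset] at hcard
  exact hcard.trans (Nat.pow_le_pow_right (by norm_num) hnear)

end Pool.Agent.Helper68K9.TS
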