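import Pool.Agent.Helper62K9.TW.Re
import Pool.Agent.Helper62K9.TW.Gl

set_option autoImplicit false

/-!
# Gluing, with the position of the segments
-/

namespace Pool.Agent.Helper68K9.TS

open Finset Pool.Agent.Helper62K9.TW

/-- like `S_RE`; `g e` is the number of the segment of the variable `e` -/
theorem re' (X Q I : Type) [Fintype X] [Fintype Q] (P : TwoWay X Q) (T M w : ℕ) (𝓕 : Finset I)
    (x : I → X → Bool) (hw : 0 < w) (hX : Fintype.card X ≤ (M + 1) * w)
    (hacc : ∀ i ∈ 𝓕, P.Accepts T (x i)) :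
    ∃ F ⊆ 𝓕, 𝓕.card ≤ (w * (T * Fintype.card Q + 1) ^ (T / w)) ^ M * F.card ∧
      (F.Nonempty → ∃ g : X → ℕ, (∀ e, g e ≤ M) ∧
        (∀ e, (g e - 1) * w ≤ P.order e ∧ ((P.order e : Fin _) : ℕ) < (g e + 1) * w) ∧
        ∀ (c : ℕ → I) (y : X → Bool), (∀ k ≤ M, c k ∈ F) →
          (∀ e, y e = x (c (g e)) e) → P.Accepts T y) := by
  classical
  have hex : ∀ i : I, ∃ (q : ℕ → Q) (h : ℕ → ℕ), i ∈ 𝓕 → P.Run T (x i) q h := by
    intro i
    by_cases hi : i ∈ 𝓕
    · obtain ⟨q, h, hr⟩ := hacc i hi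
      exact ⟨q, h, fun _ => hr⟩
    · exact ⟨fun _ => P.start, fun _ => 0, fun h => absurd h hi⟩
  choose q h hrun using hex
  have hob : ∀ (i : I) (k : ℕ), ∃ o : ℕ, o < w ∧ (i ∈ 𝓕 → ((range T).filter fun t =>
      ¬ (h i t ≤ k * w + o ↔ h i (t + 1) ≤ k * w + o)).card ≤ T / w) := by
    intro i k
    by_cases hi : i ∈ 𝓕
    · obtain ⟨o, h1, h2⟩ := exists_boundary (h i) T w k hw fun t ht =>
        P.local_step _ _ _ _ _ _ ((hrun i hi).2.2.2 t ht)
      exact ⟨o, h1, fun _ => h2⟩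
    · exact ⟨0, hw, fun h => absurd h hi⟩
  choose o ho hoc using hob
  set ty : I → (Fin M → ℕ × Finset (ℕ × Q)) := fun i k =>
    (o i k, events T (k * w + o i k) (q i) (h i)) with hty
  set U : Finset (Finset (ℕ × Q)) :=
    (range T ×ˢ (univ : Finset Q)).powerset.filter fun E => E.card ≤ T / w with hU
  set 𝒯 : Finset (Fin M → ℕ × Finset (ℕ × Q)) :=
    Fintype.piFinset fun _ : Fin M => range w ×ˢ U with h𝒯
  have hUne : (∅ : Finset (ℕ × Q)) ∈ U := mem_filter.2 ⟨by simp, by simp⟩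
  have h𝒯ne : 𝒯.Nonempty := ⟨fun _ => (0, ∅), by
    rw [h𝒯, Fintype.mem_piFinset]
    intro k
    exact mem_product.2 ⟨mem_range.2 hw, hUne⟩⟩
  obtain ⟨τ, hτ, hcard⟩ := pigeon 𝓕 𝒯 h𝒯ne ty (by
    intro i hi
    rw [h𝒯, Fintype.mem_piFinset]
    intro k
    refine mem_product.2 ⟨mem_range.2 (ho i k), mem_filter.2 ⟨?_, ?_⟩⟩
    · rw [mem_powerset]
      intro p hp
      obtain ⟨t, ht, rfl⟩ := mem_image.1 hp
      exact mem_product.2 ⟨(mem_filter.1 ht).1, mem_univ _⟩
    · exact card_image_le.trans (hoc i k hi))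
  have hcardT : 𝒯.card ≤ (w * (T * Fintype.card Q + 1) ^ (T / w)) ^ M := by
    rw [h𝒯, Fintype.card_piFinset, prod_const, card_univ, Fintype.card_fin, card_product,
      card_range]
    refine Nat.pow_le_pow_left (Nat.mul_le_mul_left _ ?_) _
    have := card_small (range T ×ˢ (univ : Finset Q)) (T / w)
    rwa [card_product, card_range, card_univ] at this
  set F := 𝓕.filter fun i => ty i = τ with hF
  obtain ⟨b, hbdef⟩ : ∃ b : ℕ → ℕ, b = fun k => if hk : k < M then k * w + (τ ⟨k, hk⟩).1 else 0 :=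
    ⟨_, rfl⟩
  have hoff : ∀ k (hk : k < M), (τ ⟨k, hk⟩).1 < w := by
    intro k hk
    rw [h𝒯, Fintype.mem_piFinset] at hτ
    exact mem_range.1 (mem_product.1 (hτ ⟨k, hk⟩)).1
  have hbk : ∀ k (hk : k < M), b k = k * w + (τ ⟨k, hk⟩).1 := by
    intro k hk
    rw [hbdef]
    simp only [hk, dif_pos]
  have hb1 : ∀ k, k < M → k * w ≤ b k ∧ b k < (k + 1) * w := by
    intro k hk
    have h1 := hoff k hk
    rw [hbk k hk, Nat.succ_mul]
    omega
  have hb : ∀ i k, i < k → k < M → b i < b k := by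
    intro i k hik hk
    have h1 := (hb1 i (by omega)).2
    have h2 := (hb1 k hk).1
    have h3 : (i + 1) * w ≤ k * w := Nat.mul_le_mul_right w hik
    omega
  refine ⟨F, filter_subset _ _, hcard.trans (Nat.mul_le_mul_right _ hcardT), fun _ =>
    ⟨fun e => seg M b (P.order e), fun e => seg_le M b _, ?_, ?_⟩⟩
  · intro e
    obtain ⟨k, hk⟩ : ∃ k, k = seg M b (P.order e) := ⟨_, rfl⟩
    simp only
    rw [← hk]
    obtain ⟨h1, h2⟩ := seg_bounds hb hk.symm
    have hkM : k ≤ M := hk ▸ seg_le M b _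
    constructor
    · rcases Nat.eq_zero_or_pos k with h0 | h0
      · rw [h0]
        simp
      · have h3 := (hb1 (k - 1) (by omega)).1
        have h4 := h1 h0
        omega
    · rcases hkM.lt_or_eq with h0 | h0
      · have h3 := (hb1 k h0).2
        have h4 := h2 h0
        omega
      · rw [h0]
        exact (P.order e).2.trans_le hX
  · intro c y hc hy
    have hc0 := hc 0 (Nat.zero_le _)
    refine gl X Q {i // i ∈ F} P T M b (fun k => if hk : k < M then (τ ⟨k, hk⟩).2 else ∅)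
      (fun i => x i.1) (fun i => q i.1) (fun i => h i.1) hb
      (fun i => hrun i.1 (mem_filter.1 i.2).1) ?_
      (fun k => if hk : k ≤ M then ⟨c k, hc k hk⟩ else ⟨c 0, hc0⟩) y ?_
    · intro i k hk
      have h1 : ty i.1 = τ := (mem_filter.1 i.2).2
      have h2 := congrFun h1 ⟨k, hk⟩
      rw [hty] at h2
      simp only at h2
      rw [dif_pos hk, ← h2, hbk k hk, ← h2]
    · intro e
      have hle := seg_le M b (P.order e)
      simp only [hle, dif_pos]
      exact hy e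

end Pool.Agent.Helper68K9.TS
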